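import Pool.Agent.H.MP_806cc9_co.A
import Pool.Agent.Results.MP_8790d8_co.Exists

set_option autoImplicit false
open Filter Topology Asymptotics Pool.Agent.H Pool.Agent.H.MP_35cd17_co Pool.Agent.H.MP_8790d8_co
open Pool.Agent.H.MP_806cc9_co Pool.Agent.Results.MP_8790d8_co.Exists

namespace Pool.Agent.Results.MP_806cc9_co.Type6

noncomputable def nz6 (k n : ℕ) : ℝ := (k : ℝ) * Nat.card (G6 ≃g G6) / (n : ℝ) ^ Fintype.card (Fin 6)

theorem lim6 (H : ∀ n : ℕ, SimpleGraph (Fin n)) (t : ℕ → ℝ) (τ : ℝ)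
    (h1 : ∀ (n : ℕ) [Nonempty (Fin n)], |tt G6 (H n).Adj Finset.univ (fun _ => mu (Fin n)) - t n| ≤
      (Fintype.card (Fin 6) : ℝ) ^ 2 * (3 * (1 / n))) (h2 : Tendsto t atTop (𝓝 τ)) :
    Tendsto (fun n => nz6 ((H n).copyCount G6) n) atTop (𝓝 τ) := by
  refine h2.congr_dist (squeeze_zero' (Eventually.of_forall fun _ => dist_nonneg) ?_
    (inv0 ((Fintype.card (Fin 6) : ℝ) ^ 2 * 4)))
  filter_upwards [eventually_gt_atTop 0] with n hn
  haveI : Nonempty (Fin n) := ⟨⟨0, hn⟩⟩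
  have a := abs_le.mp (h1 n)
  have b := abs_le.mp (count_close G6 (H n))
  rw [Real.dist_eq, abs_le]
  unfold nz6
  constructor <;> linarith [a.1, a.2, b.1, b.2]

theorem Plim6 {a b : ℕ → ℝ} {r M : ℝ} (ha : Tendsto a atTop (𝓝 r)) (hb : Tendsto b atTop (𝓝 M)) :
    Tendsto (fun n => P6 (a n) (b n)) atTop (𝓝 (P6 r M)) :=
  Tendsto.comp (g := fun z : ℝ × ℝ => P6 z.1 z.2) (f := fun n => (a n, b n))
    (P6_cont.tendsto (r, M)) (ha.prodMk_nhds hb)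

theorem Tfam6 {β r M : ℝ} (h : Adm β r M) :
    (∀ (n : ℕ) [Nonempty (Fin n)],
      ee (TT n ⌊r * n⌋₊ ⌊M * n⌋₊).Adj (fun _ => mu (Fin n)) ≤ β ∧
      |ee (TT n ⌊r * n⌋₊ ⌊M * n⌋₊).Adj (fun _ => mu (Fin n)) - β| ≤ 7 * (1 / n)) ∧
    Tendsto (fun n => nz6 ((TT n ⌊r * n⌋₊ ⌊M * n⌋₊).copyCount G6) n) atTop (𝓝 (P6 r M)) := by
  obtain ⟨h1, h2, h3, h4⟩ := h
  have ab : ∀ n : ℕ, ⌊r * n⌋₊ ≤ ⌊M * n⌋₊ := fun n =>
    Nat.floor_le_floor (mul_le_mul_of_nonneg_right h2 (Nat.cast_nonneg _))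
  have bn : ∀ n : ℕ, ⌊M * n⌋₊ ≤ n := fun n =>
    Nat.floor_le_of_le (mul_le_of_le_one_left (Nat.cast_nonneg _) h3)
  have cc := fun (n : ℕ) [Nonempty (Fin n)] => col_close G6 A3 n _ _ 0 (ab n) (bn n)
    (TT n ⌊r * n⌋₊ ⌊M * n⌋₊) fun x y hxy _ _ => by rw [TT_adj _ _ _ (ab n), and_iff_right hxy]
  constructor
  · intro n _
    have hn : (0 : ℝ) < n := by
      have : 0 < n := Fin.pos_iff_nonempty.mpr inferInstance
      exact_mod_cast this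
    have c1 := abs_le.mp (cc n).1
    have c2 := col_le A3 n _ _ (ab n) (bn n) (TT n ⌊r * n⌋₊ ⌊M * n⌋₊)
      fun x y hxy => ((TT_adj _ _ _ (ab n) x y).mp hxy).2
    rw [ee3] at c1 c2
    simp only [Matrix.cons_val_zero, Matrix.cons_val_one, Matrix.cons_val] at c1 c2
    have fl : ∀ x : ℝ, 0 ≤ x → (⌊x * n⌋₊ : ℝ) / n ≤ x ∧ x - 1 / n ≤ (⌊x * n⌋₊ : ℝ) / n :=
      fun x hx => ⟨by
        rw [div_le_iff₀ hn]; exact Nat.floor_le (by positivity), by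
        rw [le_div_iff₀ hn, sub_mul, one_div_mul_cancel hn.ne']
        linarith [Nat.lt_floor_add_one (x * n)]⟩
    have f1 := fl r h1
    have f2 := fl M (h1.trans h2)
    have f3 : (⌊r * n⌋₊ : ℝ) / n ≤ (⌊M * n⌋₊ : ℝ) / n :=
      div_le_div_of_nonneg_right (by exact_mod_cast ab n) hn.le
    have f4 : 0 ≤ (⌊r * n⌋₊ : ℝ) / n := by positivity
    have f5 : 0 < 1 / (n : ℝ) := by positivity
    generalize (⌊r * n⌋₊ : ℝ) / n = α at *
    generalize (⌊M * n⌋₊ : ℝ) / n = μ at *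
    generalize 1 / (n : ℝ) = η at *
    have p1 := mul_nonneg (sub_nonneg.mpr f2.1) (show 0 ≤ M + μ - 2 * α by linarith)
    have p2 := mul_nonneg (sub_nonneg.mpr f1.1) (sub_nonneg.mpr h3)
    have p3 := mul_nonneg (sub_nonneg.mpr f2.1) (show 0 ≤ 2 - (M + μ - 2 * α) by linarith)
    have p4 := mul_nonneg (sub_nonneg.mpr f1.1) (h1.trans h2)
    rw [abs_le]
    refine ⟨by linarith, by linarith, by linarith⟩
  · refine lim6 _ (fun n => P6 ((⌊r * n⌋₊ : ℝ) / n) ((⌊M * n⌋₊ : ℝ) / n)) _ (fun n _ => ?_) ?_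
    · have := (cc n).2
      rwa [tt6] at this
    · exact Plim6 ((tendsto_nat_floor_mul_div_atTop h1).comp tendsto_natCast_atTop_atTop)
        ((tendsto_nat_floor_mul_div_atTop (h1.trans h2)).comp tendsto_natCast_atTop_atTop)

theorem ex_lim6 {β r M : ℝ} (b0 : 0 < β) (h : Adm β r M) (hm : ∀ r' M', Adm β r' M' → P6 r' M' ≤ P6 r M) :
    Tendsto (fun n => nz6 (ex n (eb β n) G6) n) atTop (𝓝 (P6 r M)) := by
  have t2 := (inv0 ((Fintype.card (Fin 6) : ℝ) ^ 2)).const_add (P6 r M)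
  rw [add_zero] at t2
  refine tendsto_of_tendsto_of_tendsto_of_le_of_le' (Tfam6 h).2 t2 ?_ ?_
  · filter_upwards [eventually_gt_atTop 0] with n hn
    haveI : Nonempty (Fin n) := ⟨⟨0, hn⟩⟩
    have := (ex_spec n (eb β n) G6).2 _ ((budget b0.le n _).mpr ((Tfam6 h).1 n).1)
    unfold nz6
    gcongr
  · filter_upwards [eventually_gt_atTop 0] with n hn
    haveI : Nonempty (Fin n) := ⟨⟨0, hn⟩⟩
    obtain ⟨H, h1, h2⟩ := (ex_spec n (eb β n) G6).1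
    have a := MP_806cc9_co.upper0 b0 (adm_le h).2 hm n H.Adj (fun _ _ h => h.symm) ((budget b0.le n _).mp h1)
    have b := abs_le.mp (count_close G6 H)
    rw [h2]
    unfold nz6
    linarith [b.2]

theorem am6 {β : ℝ} (b0 : 0 < β) (b1 : β ≤ 1) (H : ∀ n : ℕ, SimpleGraph (Fin n)) (t : ℝ)
    (ht : t ∈ Set.Icc (0 : ℝ) 1)
    (h : ∀ (n : ℕ) [Nonempty (Fin n)], |ee (H n).Adj (fun _ => mu (Fin n)) - β| ≤ 7 * (1 / n))
    (h2 : Tendsto (fun n => nz6 ((H n).copyCount G6) n) atTop (𝓝 (f6 β t))) :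
    AsympMax G6 β H ↔ ∀ q ∈ Set.Icc (0 : ℝ) 1, f6 β q ≤ f6 β t := by
  have j : β ∈ Set.Icc (0 : ℝ) 1 := ⟨b0.le, b1⟩
  obtain ⟨s, hs, hm⟩ := isCompact_Icc.exists_isMaxOn (s := Set.Icc (0 : ℝ) 1) (f := f6 β)
    ⟨0, le_rfl, zero_le_one⟩ (f6_cont β).continuousOn
  have l : Tendsto (fun n => nz6 (ex n (eb β n) G6) n) atTop (𝓝 (f6 β s)) :=
    ex_lim6 b0 (adm_q j hs) ((MP_806cc9_co.iff_adm j _).mp fun q hq => hm hq)
  have m0 : 0 < f6 β s := by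
    refine lt_of_lt_of_le ?_ (hm (a := 1) ⟨zero_le_one, le_rfl⟩)
    rw [f61]
    exact pow_pos (Real.sqrt_pos.mpr b0) _
  constructor
  · rintro ⟨_, o, o1, o2⟩ q hq
    have l2 := (o1.const_add 1).mul l
    rw [add_zero, one_mul] at l2
    rw [tendsto_nhds_unique h2 (l2.congr' ?_)]
    · exact hm hq
    · filter_upwards [o2] with n hn
      unfold nz6
      rw [hn]; ring
  · intro hq
    have e : f6 β t = f6 β s := le_antisymm (hm ht) (hq s hs)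
    rw [e] at h2
    refine ⟨bigO H β h, fun n => nz6 ((H n).copyCount G6) n / nz6 (ex n (eb β n) G6) n - 1, ?_, ?_⟩
    · have := (h2.div l m0.ne').sub_const 1
      rwa [div_self m0.ne', sub_self] at this
    · filter_upwards [l.eventually_ne m0.ne'] with n hn
      unfold nz6 at *
      have a1 := (div_ne_zero_iff.mp hn).2
      have a2 := (mul_ne_zero_iff.mp (div_ne_zero_iff.mp hn).1)
      have a3 := a2.1
      have a4 := a2.2
      field_simp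
      ring

theorem Kfam6 {β : ℝ} (b0 : 0 ≤ β) (b1 : β ≤ 1) :
    (∀ (n : ℕ) [Nonempty (Fin n)],
      |ee (QK n (eb β n)).Adj (fun _ => mu (Fin n)) - β| ≤ 7 * (1 / n)) ∧
    Tendsto (fun n => nz6 ((QK n (eb β n)).copyCount G6) n) atTop (𝓝 (f6 β 1)) := by
  obtain ⟨k1, k2⟩ := clq (eb β) β fun n hn => by
    have n1 : (1 : ℝ) ≤ n := by exact_mod_cast hn
    have a := eb_spec b0 n
    have b := mul_le_mul_of_nonneg_right b1 (sq_nonneg (n : ℝ))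
    rw [abs_le]
    refine ⟨⟨?_, ?_⟩, ?_⟩ <;> linarith [a.1, a.2]
  have cc := fun (n : ℕ) [i : Nonempty (Fin n)] => col_close G6 A3 n 0 _ (ca (eb β n))
    (Nat.zero_le _) (k1 n (Fin.pos_iff_nonempty.mpr i)).1 (QK n (eb β n)) fun x y hxy hx hy => by
      rw [QK_adj _ _ _ _ hxy hx hy]
      unfold A3 A4 cl
      split_ifs <;> simp <;> omega
  constructor
  · intro n i
    have c1 := abs_le.mp (cc n).1
    have c2 := abs_le.mp (k1 n (Fin.pos_iff_nonempty.mpr i)).2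
    rw [ee3] at c1
    simp only [Matrix.cons_val_zero, Matrix.cons_val_one, Matrix.cons_val, Nat.cast_zero, zero_div,
      sub_zero, zero_add, mul_zero, zero_mul, add_zero] at c1
    rw [abs_le]
    constructor <;> linarith [c1.1, c1.2, c2.1, c2.2]
  · refine lim6 _ (fun n => ((ca (eb β n) : ℝ) / n) ^ 6) _ (fun n _ => ?_) ?_
    · have := (cc n).2
      rwa [tt6, Nat.cast_zero, zero_div, P60] at this
    · rw [f61]
      exact k2.pow 6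

theorem Tzero (t : ℝ) : AsympMax G6 0 fun n => TG n 0 t := by
  have b : ∀ n, TG n 0 t = ⊥ := fun n => by
    ext x y
    simp [TG, TT]
  refine ⟨?_, 0, tendsto_const_nhds, Eventually.of_forall fun n => ?_⟩
  · simp only [b, SimpleGraph.edgeSet_bot, Set.ncard_empty, Nat.cast_zero, mul_zero, zero_div,
      sub_zero]
    exact isBigO_zero _ _
  have e : eb 0 n = 0 := by simp [eb]
  obtain ⟨H, h1, h2⟩ := (ex_spec n 0 G6).1
  have a : H = ⊥ := by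
    rw [← SimpleGraph.edgeSet_eq_empty]
    exact (Set.ncard_eq_zero (Set.toFinite _)).mp (Nat.le_zero.mp h1)
  simp only [e, h2, a, b, Pi.zero_apply, add_zero, one_mul]

/-- The transition for `G_6` is at `β = 1/25` and is continuous. -/
theorem result :
    (∀ β ∈ Set.Ico (0 : ℝ) (1 / 25), ∃ t ∈ Set.Ioo (0 : ℝ) 1, AsympMax G6 β fun n => TG n β t) ∧
    (∀ β ∈ Set.Icc (1 / 25 : ℝ) 1, AsympMax G6 β fun n => QK n (eb β n)) ∧
    (∀ β ∈ Set.Ioo (0 : ℝ) (1 / 25), ¬ AsympMax G6 β fun n => QK n (eb β n)) ∧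
    (∀ t ∈ Set.Ioo (0 : ℝ) 1, ¬ AsympMax G6 (1 / 25) fun n => TG n (1 / 25) t) ∧
    ¬ ∃ γ ∈ Set.Ioo (0 : ℝ) 1,
      (∀ β ∈ Set.Icc 0 γ, ∃ t ∈ Set.Ioo (0 : ℝ) 1, AsympMax G6 β fun n => TG n β t) ∧
      ∀ β ∈ Set.Icc γ 1, AsympMax G6 β fun n => QK n (eb β n) := by
  have aK := fun (β : ℝ) (b0 : 0 < β) (b1 : β ≤ 1) => am6 b0 b1 _ 1 ⟨zero_le_one, le_rfl⟩
    (Kfam6 b0.le b1).1 (Kfam6 b0.le b1).2
  have aT : ∀ β : ℝ, 0 < β → β ≤ 1 → ∀ t ∈ Set.Ioo (0 : ℝ) 1,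
      (AsympMax G6 β fun n => TG n β t) ↔ ∀ q ∈ Set.Icc (0 : ℝ) 1, f6 β q ≤ f6 β t :=
    fun β b0 b1 t ht =>
      have T := Tfam6 (adm_q ⟨b0.le, b1⟩ ⟨ht.1.le, ht.2.le⟩)
      am6 b0 b1 _ t ⟨ht.1.le, ht.2.le⟩ (fun n _ => (T.1 n).2) T.2
  have h3 : ∀ β ∈ Set.Ioo (0 : ℝ) (1 / 25), ¬ AsympMax G6 β fun n => QK n (eb β n) :=
    fun β hβ h => by
      obtain ⟨q, hq, h1⟩ := below hβ.1 hβ.2
      exact absurd ((aK β hβ.1 (by linarith [hβ.2])).mp h q hq) (not_le.mpr h1)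
  have h4 : ∀ t ∈ Set.Ioo (0 : ℝ) 1, ¬ AsympMax G6 (1 / 25) fun n => TG n (1 / 25) t :=
    fun t ht h => absurd ((aT _ (by norm_num) (by norm_num) t ht).mp h 1 ⟨zero_le_one, le_rfl⟩)
      (not_le.mpr (atc ht.1.le ht.2))
  refine ⟨fun β hβ => ?_, fun β hβ => ?_, h3, h4, ?_⟩
  · rcases eq_or_lt_of_le hβ.1 with h | h
    · rw [← h]
      exact ⟨1 / 2, by constructor <;> norm_num, Tzero _⟩
    · obtain ⟨t, ht, hq⟩ := inner h hβ.2
      exact ⟨t, ht, (aT β h (by linarith [hβ.2]) t ht).mpr hq⟩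
  · exact (aK β (by linarith [hβ.1]) hβ.2).mpr (above hβ.1 hβ.2)
  · rintro ⟨γ, hγ, h1, h2⟩
    rcases lt_or_ge γ (1 / 25) with h | h
    · exact h3 γ ⟨hγ.1, h⟩ (h2 γ ⟨le_rfl, hγ.2.le⟩)
    · obtain ⟨t, ht, h5⟩ := h1 (1 / 25) ⟨by norm_num, h⟩
      exact h4 t ht h5

end Pool.Agent.Results.MP_806cc9_co.Type6
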